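import Pool.Agent.H56.HB.Targets

/-!
# Theorem (H0), block (c), row XFR: one prime with the property (F)
-/

set_option autoImplicit false

namespace Pool.Agent.H56.HB.XF

open Finset Pool.Agent.H93 Pool.Agent.H18.MR Pool.Agent.H93.DE Pool.Agent.H6.N4D Pool.Agent.H93.ES
open Pool.Agent.H22.GS Pool.Agent.H56.HB
open Pool.Agent.H3.BT (NCt)

lemma ind_nn (p : Prop) : 0 ≤ EB.ind p := by
  unfold EB.ind
  split_ifs <;> norm_num

lemma ind_true {p : Prop} (h : p) : EB.ind p = 1 := by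
  unfold EB.ind
  rw [if_pos h]

lemma conj_ee (x : ℝ) : starRingEnd ℂ (ee x) = ee (-x) := by
  unfold ee
  rw [← Complex.exp_conj, map_mul, Complex.conj_ofReal, Complex.conj_I]
  congr 1
  push_cast
  ring

lemma wm_sum (f : ℕ → ℝ) (w : ℕ) (D : ℕ) (κ : ℕ → ℝ) (y : ℕ → ℕ → ℝ) (c : ℕ → ℂ)
    (hf : ∀ t, f t = ∑ d ∈ range D, κ d * y d t) :
    wm f w c = ∑ d ∈ range D, (κ d : ℂ) * wm (y d) w c := by
  unfold wm
  simp only [mul_div_assoc', ← Finset.sum_div, Finset.mul_sum]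
  rw [Finset.sum_comm]
  congr 1
  refine Finset.sum_congr rfl fun t _ => ?_
  rw [hf t]
  push_cast
  rw [Finset.sum_mul]
  refine Finset.sum_congr rfl fun d _ => by ring

lemma geo (D : ℕ) : ∑ d ∈ range D, ((1 : ℝ) / 2) ^ (d + 1) = 1 - (1 / 2) ^ D := by
  induction D with
  | zero => simp
  | succ D ih =>
    rw [Finset.sum_range_succ, ih, pow_succ]
    ring

lemma kap_le {κ : ℕ → ℝ} (hκ : ∀ d, 0 ≤ κ d ∧ κ d ≤ (1 / 2) ^ (d + 1)) (D : ℕ) :
    ∑ d ∈ range D, κ d ≤ 1 := by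
  have h1 := geo D
  have h2 : (0 : ℝ) < (1 / 2) ^ D := by positivity
  have h3 : ∑ d ∈ range D, κ d ≤ ∑ d ∈ range D, ((1 : ℝ) / 2) ^ (d + 1) :=
    Finset.sum_le_sum fun d _ => (hκ d).2
  linarith

lemma f_le {κ : ℕ → ℝ} (hκ : ∀ d, 0 ≤ κ d ∧ κ d ≤ (1 / 2) ^ (d + 1)) {D : ℕ} {y : ℕ → ℕ → ℝ}
    {f : ℕ → ℝ} (hy : ∀ d t, |y d t| ≤ 1) (hf : ∀ t, f t = ∑ d ∈ range D, κ d * y d t) (t : ℕ) :
    |f t| ≤ 1 := by
  rw [hf]
  refine (Finset.abs_sum_le_sum_abs _ _).trans ?_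
  refine le_trans (Finset.sum_le_sum fun d _ => ?_) (kap_le hκ D)
  rw [abs_mul, abs_of_nonneg (hκ d).1]
  calc κ d * |y d t| ≤ κ d * 1 := mul_le_mul_of_nonneg_left (hy d t) (hκ d).1
    _ = κ d := mul_one _

/-- the square of the mean of `f c` by the digits -/
lemma wm_sq {κ : ℕ → ℝ} (hκ : ∀ d, 0 ≤ κ d ∧ κ d ≤ (1 / 2) ^ (d + 1)) {D : ℕ} {y : ℕ → ℕ → ℝ}
    {f : ℕ → ℝ} (hf : ∀ t, f t = ∑ d ∈ range D, κ d * y d t) (w : ℕ) (c : ℕ → ℂ) :
    ‖wm f w c‖ ^ 2 ≤ ∑ d ∈ range D, (1 / 2) ^ (d + 1) * ‖wm (y d) w c‖ ^ 2 := by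
  rw [wm_sum f w D κ y c hf]
  have h1 : ‖∑ d ∈ range D, (κ d : ℂ) * wm (y d) w c‖ ≤
      ∑ d ∈ range D, κ d * ‖wm (y d) w c‖ := by
    refine (norm_sum_le _ _).trans (Finset.sum_le_sum fun d _ => ?_)
    rw [norm_mul, Complex.norm_real, Real.norm_eq_abs, abs_of_nonneg (hκ d).1]
  have h2 : (∑ d ∈ range D, κ d * ‖wm (y d) w c‖) ^ 2 ≤
      (∑ d ∈ range D, κ d) * ∑ d ∈ range D, κ d * ‖wm (y d) w c‖ ^ 2 := by
    refine Finset.sum_sq_le_sum_mul_sum_of_sq_eq_mul _ (fun d _ => (hκ d).1)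
      (fun d _ => mul_nonneg (hκ d).1 (sq_nonneg _)) fun d _ => by ring
  have h3 : 0 ≤ ∑ d ∈ range D, κ d * ‖wm (y d) w c‖ ^ 2 :=
    Finset.sum_nonneg fun d _ => mul_nonneg (hκ d).1 (sq_nonneg _)
  calc ‖∑ d ∈ range D, (κ d : ℂ) * wm (y d) w c‖ ^ 2 ≤
        (∑ d ∈ range D, κ d * ‖wm (y d) w c‖) ^ 2 := pow_le_pow_left₀ (norm_nonneg _) h1 2
    _ ≤ (∑ d ∈ range D, κ d) * ∑ d ∈ range D, κ d * ‖wm (y d) w c‖ ^ 2 := h2
    _ ≤ 1 * ∑ d ∈ range D, κ d * ‖wm (y d) w c‖ ^ 2 :=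
        mul_le_mul_of_nonneg_right (kap_le hκ D) h3
    _ ≤ _ := by
        rw [one_mul]
        exact Finset.sum_le_sum fun d _ => mul_le_mul_of_nonneg_right (hκ d).2 (sq_nonneg _)

/-- the number of multiples in an interval -/
lemma card_mul (q r₀ M : ℕ) (hq : 1 ≤ q) :
    (((range M).filter fun t => q ∣ r₀ + t).card : ℝ) ≤ (M : ℝ) / q + 1 := by
  have hq0 : (0 : ℝ) < q := by exact_mod_cast hq
  have h1 : ((range M).filter fun t => q ∣ r₀ + t).card ≤ M / q + 1 := by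
    have h3 : ((range M).filter fun t => q ∣ r₀ + t).card ≤
        ((range (M / q + 1))).card := by
      refine Finset.card_le_card_of_injOn (fun t => t / q) ?_ ?_
      · intro t ht
        rw [Finset.mem_coe, mem_filter, mem_range] at ht
        simp only [Finset.coe_range, Set.mem_Iio]
        have := Nat.div_le_div_right (c := q) ht.1.le
        omega
      · intro t ht t' ht' htt
        rw [Finset.mem_coe, mem_filter, mem_range] at ht ht'
        simp only at htt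
        have e1 : (r₀ + t) ≡ (r₀ + t') [MOD q] :=
          (Nat.modEq_zero_iff_dvd.2 ht.2).trans (Nat.modEq_zero_iff_dvd.2 ht'.2).symm
        have e2 : t ≡ t' [MOD q] := Nat.ModEq.add_left_cancel' r₀ e1
        have e3 := Nat.div_add_mod t q
        have e4 := Nat.div_add_mod t' q
        unfold Nat.ModEq at e2
        rw [← e3, ← e4, htt, e2]
    rw [card_range] at h3
    exact h3
  have h2 : ((M / q : ℕ) : ℝ) ≤ (M : ℝ) / q := Nat.cast_div_le
  have h3 : (((range M).filter fun t => q ∣ r₀ + t).card : ℝ) ≤ ((M / q + 1 : ℕ) : ℝ) := by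
    exact_mod_cast h1
  push_cast at h3
  linarith

/-- the trivial bound -/
lemma wm_le3 {f : ℕ → ℝ} (hf : ∀ t, |f t| ≤ 1) {w q r₀ : ℕ} (hq : 1 ≤ q) (hqw : q ≤ 2 ^ w)
    (g : ℕ → ℂ) (hg : ∀ t, ‖g t‖ ≤ 1) :
    ‖wm f w (fun t => (DR q (r₀ + t) : ℂ) * g t)‖ ≤ 3 := by
  have hN : (0 : ℝ) < 2 ^ w := by positivity
  have hq0 : (0 : ℝ) < q := by exact_mod_cast hq
  unfold wm
  rw [norm_div, norm_pow, Complex.norm_ofNat, div_le_iff₀ hN]
  have h1 : ∀ t ∈ range (2 ^ w), ‖(f t : ℂ) * ((DR q (r₀ + t) : ℂ) * g t)‖ ≤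
      (if q ∣ r₀ + t then (q : ℝ) else 0) + 1 := by
    intro t _
    rw [norm_mul, norm_mul, Complex.norm_real, Complex.norm_real, Real.norm_eq_abs,
      Real.norm_eq_abs]
    have h2 : |DR q (r₀ + t)| ≤ (if q ∣ r₀ + t then (q : ℝ) else 0) + 1 := by
      unfold DR
      split_ifs
      · rw [abs_le]
        constructor <;> linarith
      · simp
    have h3 : 0 ≤ |DR q (r₀ + t)| := abs_nonneg _
    calc |f t| * (|DR q (r₀ + t)| * ‖g t‖) ≤ 1 * (|DR q (r₀ + t)| * 1) := by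
          refine mul_le_mul (hf t) (mul_le_mul_of_nonneg_left (hg t) h3) (by positivity)
            zero_le_one
      _ = |DR q (r₀ + t)| := by ring
      _ ≤ _ := h2
  refine (norm_sum_le _ _).trans ((Finset.sum_le_sum h1).trans ?_)
  rw [Finset.sum_add_distrib, ← Finset.sum_filter, Finset.sum_const, Finset.sum_const,
    nsmul_eq_mul, nsmul_eq_mul, card_range]
  have h3 := card_mul q r₀ (2 ^ w) hq
  have h4 := mul_le_mul_of_nonneg_right h3 hq0.le
  have h5 : (((2 ^ w : ℕ) : ℝ) / q + 1) * q = 2 ^ w + q := by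
    push_cast
    field_simp
  have h6 : (q : ℝ) ≤ 2 ^ w := by exact_mod_cast hqw
  push_cast at h4 h5 ⊢
  linarith

lemma kA_le3 {f : ℕ → ℝ} (hf : ∀ t, |f t| ≤ 1) {w q r₀ : ℕ} (hq : 1 ≤ q) (hqw : q ≤ 2 ^ w)
    (α : ℝ) : ‖wm f w (kA q r₀ α)‖ ≤ 3 :=
  wm_le3 hf hq hqw (fun t => ee (-(α * t))) fun t => (norm_ee _).le

lemma cx_eq (f : ℕ → ℝ) (w q r₀ P : ℕ) (c : ℕ → ℂ) (α : ℕ → ℝ) (F : ℕ → ℂ)
    (hF : ∀ t, F t = ∑ j ∈ range P, c j * ee (α j * t)) :
    cx f w q r₀ F = ∑ j ∈ range P, starRingEnd ℂ (c j) * wm f w (kA q r₀ (α j)) := by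
  unfold cx wm
  simp only [mul_div_assoc', ← Finset.sum_div, Finset.mul_sum]
  rw [Finset.sum_comm]
  congr 1
  refine Finset.sum_congr rfl fun t _ => ?_
  rw [hF t, map_sum, Finset.mul_sum, Finset.mul_sum]
  refine Finset.sum_congr rfl fun j _ => ?_
  unfold kA
  rw [map_mul, conj_ee]
  ring

lemma wm_kA (f : ℕ → ℝ) (w q r₀ : ℕ) (α : ℝ) : wm f w (kA q r₀ α) =
    wm f w (kB q r₀ α) - wm f w (fun t => ee (-(α * t))) := by
  unfold wm
  rw [← sub_div, ← Finset.sum_sub_distrib]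
  congr 1
  refine Finset.sum_congr rfl fun t _ => ?_
  unfold kA kB DR
  split_ifs <;> push_cast <;> ring

theorem pf_XFR : T_XFR := by
  intro P V δ hV hδ
  have hV0 : 0 < V := by linarith
  obtain ⟨τ, hτ⟩ : ∃ τ : ℝ, τ = min 1 (δ / (8 * V)) := ⟨_, rfl⟩
  have hτ0 : 0 < τ := by
    rw [hτ]
    exact lt_min one_pos (by positivity)
  have hτ1 : τ ≤ 1 := by
    rw [hτ]
    exact min_le_left _ _
  have hτ2 : τ ≤ δ / (8 * V) := by
    rw [hτ]
    exact min_le_right _ _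
  obtain ⟨D₀, hD₀⟩ : ∃ D₀ : ℕ, ((1 : ℝ) / 2) ^ D₀ < δ / (24 * V) :=
    exists_pow_lt_of_lt_one (by positivity) (by norm_num)
  refine ⟨D₀, τ, hτ0, hτ1, fun k C₀ C₁ hC₀ hC01 => ?_⟩
  have hC₁ : 0 < C₁ := by linarith
  obtain ⟨a, ha⟩ : ∃ a : ℝ, a = δ / (2 * (P + 1) * V) := ⟨_, rfl⟩
  have ha0 : 0 < a := by
    rw [ha]
    positivity
  refine ⟨1 / (4 * a), by positivity, ?_⟩
  intro w q r₀ D κ y f S c α F hD hq hqw hκ hy hf hcov hc hF hsum
  have hf1 := f_le hκ hy hf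
  have h2w : (0 : ℝ) < 2 ^ w := by positivity
  -- the near frequencies
  have hch : ∀ j, ∃ g : ℕ → Fin k → ℕ → ℂ, (∀ d i, BW w 1 (7 * C₁) (g d i)) ∧
      ‖c j‖ * ‖wm f w (kA q r₀ (α j))‖ ≤
        ‖c j‖ * (δ / V * (5 / 16)) + a * ‖c j‖ ^ 2 + 1 / (4 * a) *
          (∑ d' ∈ range D₀, ∑ i, ∑ d ∈ range D, (1 / 2) ^ (d + 1) *
            ‖wm (y d) w (fun t => kA q r₀ (S d' i) t * g d' i t)‖ ^ 2) +
        3 * P * (∑ d' ∈ range D₀, EB.ind (∃ β : ℝ, FarT q w (S d') C₁ β ∧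
          τ ≤ ‖wm (y d') w (kB q r₀ β)‖)) +
        3 * P * (∑ d' ∈ range D₀, ∑ i, EB.ind (∃ b : ℤ, ¬ ((q : ℤ) ∣ b) ∧
          nd (α j - S d' i - (b : ℝ) / q) ≤ C₁ / 2 ^ w)) := by
    intro j
    have z0 : 0 ≤ ‖c j‖ := norm_nonneg _
    have z1 : 0 ≤ ‖c j‖ * (δ / V * (5 / 16)) := by positivity
    have z2 : 0 ≤ a * ‖c j‖ ^ 2 := by positivity
    have z3 : ∀ g : ℕ → Fin k → ℕ → ℂ, 0 ≤ 1 / (4 * a) *
          (∑ d' ∈ range D₀, ∑ i, ∑ d ∈ range D, (1 / 2) ^ (d + 1) *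
            ‖wm (y d) w (fun t => kA q r₀ (S d' i) t * g d' i t)‖ ^ 2) := fun g =>
      mul_nonneg (by positivity) (Finset.sum_nonneg fun _ _ => Finset.sum_nonneg fun _ _ =>
        Finset.sum_nonneg fun _ _ => by positivity)
    have z4 : 0 ≤ 3 * (P : ℝ) * (∑ d' ∈ range D₀, EB.ind (∃ β : ℝ, FarT q w (S d') C₁ β ∧
          τ ≤ ‖wm (y d') w (kB q r₀ β)‖)) :=
      mul_nonneg (by positivity) (Finset.sum_nonneg fun _ _ => ind_nn _)
    have z5 : 0 ≤ 3 * (P : ℝ) * (∑ d' ∈ range D₀, ∑ i, EB.ind (∃ b : ℤ, ¬ ((q : ℤ) ∣ b) ∧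
          nd (α j - S d' i - (b : ℝ) / q) ≤ C₁ / 2 ^ w)) :=
      mul_nonneg (by positivity) (Finset.sum_nonneg fun _ _ =>
        Finset.sum_nonneg fun _ _ => ind_nn _)
    have h3 := kA_le3 hf1 hq hqw (r₀ := r₀) (α j)
    have h3P : ‖c j‖ * ‖wm f w (kA q r₀ (α j))‖ ≤ 3 * P := by
      calc ‖c j‖ * ‖wm f w (kA q r₀ (α j))‖ ≤ P * 3 :=
            mul_le_mul (hc j) h3 (norm_nonneg _) (Nat.cast_nonneg _)
        _ = 3 * P := by ring
    have hgz : ∀ (d : ℕ) (i : Fin k), BW w 1 (7 * C₁) (fun _ : ℕ => (0 : ℂ)) := by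
      intro d i
      refine ⟨fun t _ => by simp, ?_⟩
      simp only [sub_self, norm_zero, Finset.sum_const_zero]
      positivity
    by_cases h1 : ∃ d' < D₀, ∃ (i : Fin k) (b : ℤ), (q : ℤ) ∣ b ∧
        nd (α j - S d' i - (b : ℝ) / q) < C₁ / 2 ^ w
    · -- a near frequency
      obtain ⟨d', hd', i, b, ⟨b', rfl⟩, hnd⟩ := h1
      have hq0 : (q : ℝ) ≠ 0 := by
        have : 0 < q := by omega
        exact_mod_cast this.ne'
      have e1 : (((q : ℤ) * b' : ℤ) : ℝ) / q = b' := by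
        push_cast
        field_simp
      rw [e1] at hnd
      obtain ⟨m, hm⟩ := exists_int (α j - S d' i - b')
      rw [← hm] at hnd
      obtain ⟨z, hz⟩ : ∃ z : ℝ, z = α j - S d' i - b' - m := ⟨_, rfl⟩
      rw [← hz] at hnd
      classical
      refine ⟨fun d'' i'' t => if d'' = d' ∧ i'' = i then ee (-(z * t)) else 0, ?_, ?_⟩
      · intro d'' i''
        by_cases h4 : d'' = d' ∧ i'' = i
        · refine ⟨fun t _ => ?_, ?_⟩
          · show ‖(if d'' = d' ∧ i'' = i then ee (-(z * t)) else 0 : ℂ)‖ ≤ 1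
            rw [if_pos h4, norm_ee]
          · simp only [if_pos h4]
            have h5 : ∀ t ∈ range (2 ^ w - 1),
                ‖ee (-(z * ((t + 1 : ℕ) : ℝ))) - ee (-(z * (t : ℝ)))‖ ≤ 7 * (C₁ / 2 ^ w) := by
              intro t _
              have h6 := norm_ee_sub_le (-(z * ((t + 1 : ℕ) : ℝ))) (-(z * (t : ℝ)))
              have h7 : -(z * ((t + 1 : ℕ) : ℝ)) - -(z * (t : ℝ)) = -z := by
                push_cast
                ring
              rw [h7, nd_neg] at h6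
              have h8 := nd_le_abs z
              have h9 : 2 * Real.pi ≤ 7 := by
                have := Real.pi_lt_d2
                linarith
              calc _ ≤ 2 * Real.pi * nd z := h6
                _ ≤ 7 * nd z := mul_le_mul_of_nonneg_right h9 (nd_nonneg _)
                _ ≤ 7 * (C₁ / 2 ^ w) := by linarith
            refine (Finset.sum_le_sum h5).trans ?_
            rw [Finset.sum_const, card_range, nsmul_eq_mul]
            have h6 : (((2 ^ w - 1 : ℕ) : ℝ)) ≤ 2 ^ w := by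
              have : (2 ^ w - 1 : ℕ) ≤ 2 ^ w := Nat.sub_le _ _
              exact_mod_cast this
            calc ((2 ^ w - 1 : ℕ) : ℝ) * (7 * (C₁ / 2 ^ w)) ≤ 2 ^ w * (7 * (C₁ / 2 ^ w)) :=
                  mul_le_mul_of_nonneg_right h6 (by positivity)
              _ = 7 * C₁ := by field_simp
        · simp only [if_neg h4]
          exact hgz d'' i''
      · have h4 : wm f w (kA q r₀ (α j)) =
            wm f w (fun t => kA q r₀ (S d' i) t * ee (-(z * t))) := by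
          congr 1
          funext t
          unfold kA
          have h5 : -(α j * t) = ((-((b' + m) * t) : ℤ) : ℝ) + (-(S d' i * t) + -(z * t)) := by
            rw [hz]
            push_cast
            ring
          rw [h5, ee_add, ee_int, ee_add]
          ring
        have h5 := wm_sq hκ hf w (fun t => kA q r₀ (S d' i) t * ee (-(z * t)))
        rw [← h4] at h5
        have h6 : ∑ d ∈ range D, (1 / 2 : ℝ) ^ (d + 1) *
            ‖wm (y d) w (fun t => kA q r₀ (S d' i) t * ee (-(z * t)))‖ ^ 2 ≤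
            ∑ d'' ∈ range D₀, ∑ i'' : Fin k, ∑ d ∈ range D, (1 / 2 : ℝ) ^ (d + 1) *
            ‖wm (y d) w (fun t => kA q r₀ (S d'' i'') t *
              (if d'' = d' ∧ i'' = i then ee (-(z * t)) else 0))‖ ^ 2 := by
          have h7 : ∀ d'' ∈ range D₀, 0 ≤ ∑ i'' : Fin k, ∑ d ∈ range D, (1 / 2 : ℝ) ^ (d + 1) *
              ‖wm (y d) w (fun t => kA q r₀ (S d'' i'') t *
              (if d'' = d' ∧ i'' = i then ee (-(z * t)) else 0))‖ ^ 2 := fun _ _ =>
            Finset.sum_nonneg fun _ _ => Finset.sum_nonneg fun _ _ => by positivity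
          refine le_trans ?_ (Finset.single_le_sum h7 (mem_range.2 hd'))
          have h8 : ∀ i'' ∈ (univ : Finset (Fin k)), 0 ≤ ∑ d ∈ range D,
              (1 / 2 : ℝ) ^ (d + 1) * ‖wm (y d) w (fun t => kA q r₀ (S d' i'') t *
              (if d' = d' ∧ i'' = i then ee (-(z * t)) else 0))‖ ^ 2 := fun _ _ =>
            Finset.sum_nonneg fun _ _ => by positivity
          refine le_trans ?_ (Finset.single_le_sum h8 (mem_univ i))
          refine le_of_eq (Finset.sum_congr rfl fun d _ => ?_)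
          simp
        have h7 : ‖c j‖ * ‖wm f w (kA q r₀ (α j))‖ ≤
            a * ‖c j‖ ^ 2 + 1 / (4 * a) * ‖wm f w (kA q r₀ (α j))‖ ^ 2 := by
          have h8 : 0 ≤ (2 * a * ‖c j‖ - ‖wm f w (kA q r₀ (α j))‖) ^ 2 / (4 * a) := by positivity
          have h9 : (2 * a * ‖c j‖ - ‖wm f w (kA q r₀ (α j))‖) ^ 2 / (4 * a) =
              a * ‖c j‖ ^ 2 + 1 / (4 * a) * ‖wm f w (kA q r₀ (α j))‖ ^ 2 -
              ‖c j‖ * ‖wm f w (kA q r₀ (α j))‖ := by
            field_simp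
            ring
          linarith
        have h8 := mul_le_mul_of_nonneg_left (h5.trans h6)
          (show (0 : ℝ) ≤ 1 / (4 * a) by positivity)
        linarith
    · by_cases h2 : ∃ d' < D₀, ∃ (i : Fin k) (b : ℤ),
          nd (α j - S d' i - (b : ℝ) / q) < C₁ / 2 ^ w
      · -- a bad lift
        obtain ⟨d', hd', i, b, hnd⟩ := h2
        have hb : ¬ (q : ℤ) ∣ b := fun h => h1 ⟨d', hd', i, b, h, hnd⟩
        refine ⟨fun _ _ _ => 0, hgz, ?_⟩
        have h4 : (1 : ℝ) ≤ ∑ d' ∈ range D₀, ∑ i, EB.ind (∃ b : ℤ, ¬ ((q : ℤ) ∣ b) ∧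
            nd (α j - S d' i - (b : ℝ) / q) ≤ C₁ / 2 ^ w) := by
          have h5 : ∀ d' ∈ range D₀, 0 ≤ ∑ i, EB.ind (∃ b : ℤ, ¬ ((q : ℤ) ∣ b) ∧
            nd (α j - S d' i - (b : ℝ) / q) ≤ C₁ / 2 ^ w) := fun _ _ =>
            Finset.sum_nonneg fun _ _ => ind_nn _
          refine le_trans ?_ (Finset.single_le_sum h5 (mem_range.2 hd'))
          refine le_trans ?_ (Finset.single_le_sum (fun _ _ => ind_nn _) (mem_univ i))
          exact (ind_true ⟨b, hb, hnd.le⟩).ge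
        have h5 : 3 * (P : ℝ) ≤ 3 * P * (∑ d' ∈ range D₀, ∑ i, EB.ind (∃ b : ℤ,
            ¬ ((q : ℤ) ∣ b) ∧ nd (α j - S d' i - (b : ℝ) / q) ≤ C₁ / 2 ^ w)) := by
          have h6 : (0 : ℝ) ≤ 3 * P := by positivity
          nlinarith
        have h6 := z3 (fun _ _ _ => 0)
        linarith
      · have hfar : ∀ d' < D₀, FarT q w (S d') C₁ (α j) := by
          intro d' hd' i b
          by_contra h4
          exact h2 ⟨d', hd', i, b, not_le.1 h4⟩
        refine ⟨fun _ _ _ => 0, hgz, ?_⟩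
        have h6 := z3 (fun _ _ _ => 0)
        by_cases h4 : ∃ d' < D₀, τ ≤ ‖wm (y d') w (kB q r₀ (α j))‖
        · obtain ⟨d', hd', h4⟩ := h4
          have h5 : (1 : ℝ) ≤ ∑ d' ∈ range D₀, EB.ind (∃ β : ℝ, FarT q w (S d') C₁ β ∧
              τ ≤ ‖wm (y d') w (kB q r₀ β)‖) := by
            refine le_trans ?_ (Finset.single_le_sum (fun _ _ => ind_nn _) (mem_range.2 hd'))
            exact (ind_true ⟨α j, hfar d' hd', h4⟩).ge
          have h7 : 3 * (P : ℝ) ≤ 3 * P * (∑ d' ∈ range D₀, EB.ind (∃ β : ℝ,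
              FarT q w (S d') C₁ β ∧ τ ≤ ‖wm (y d') w (kB q r₀ β)‖)) := by
            have h8 : (0 : ℝ) ≤ 3 * P := by positivity
            nlinarith
          linarith
        · -- the small case
          have h4' : ∀ d' < D₀, ‖wm (y d') w (kB q r₀ (α j))‖ ≤ τ := by
            intro d' hd'
            by_contra h5
            exact h4 ⟨d', hd', (not_le.1 h5).le⟩
          have h5 : ∀ d' < D₀, ‖wm (y d') w (kA q r₀ (α j))‖ ≤ 3 / 2 * τ := by
            intro d' hd'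
            have h6 : ‖wm (y d') w (fun t => ee (-(α j * t)))‖ ≤ τ / 2 := by
              by_contra h7
              obtain ⟨i, hi⟩ := hcov d' hd' (α j) (not_le.1 h7).le
              have h8 := hfar d' hd' i 0
              rw [Int.cast_zero, zero_div, sub_zero] at h8
              have h9 : C₀ / 2 ^ w < C₁ / 2 ^ w := div_lt_div_of_pos_right hC01 h2w
              linarith
            rw [wm_kA]
            refine (norm_sub_le _ _).trans ?_
            have := h4' d' hd'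
            linarith
          have h7 : ‖wm f w (kA q r₀ (α j))‖ ≤ 3 / 2 * τ + 3 * (1 / 2) ^ D₀ := by
            rw [wm_sum f w D κ y _ hf]
            refine (norm_sum_le _ _).trans ?_
            have h8 : ∀ d ∈ range D, ‖(κ d : ℂ) * wm (y d) w (kA q r₀ (α j))‖ ≤
                (if d < D₀ then (1 / 2) ^ (d + 1) * (3 / 2 * τ) else (1 / 2) ^ (d + 1) * 3) := by
              intro d _
              rw [norm_mul, Complex.norm_real, Real.norm_eq_abs, abs_of_nonneg (hκ d).1]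
              split_ifs with hd
              · exact mul_le_mul (hκ d).2 (h5 d hd) (norm_nonneg _) (by positivity)
              · exact mul_le_mul (hκ d).2 (kA_le3 (hy d) hq hqw _) (norm_nonneg _)
                  (by positivity)
            refine (Finset.sum_le_sum h8).trans ?_
            have h9 : ∑ d ∈ range D, (if d < D₀ then ((1 : ℝ) / 2) ^ (d + 1) * (3 / 2 * τ) else
                (1 / 2) ^ (d + 1) * 3) ≤ ∑ d ∈ range D₀, ((1 : ℝ) / 2) ^ (d + 1) * (3 / 2 * τ) +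
                ∑ d ∈ Ico D₀ D, ((1 : ℝ) / 2) ^ (d + 1) * 3 := by
              rw [← Finset.sum_range_add_sum_Ico _ hD]
              refine le_of_eq ?_
              congr 1
              · refine Finset.sum_congr rfl fun d hd => ?_
                rw [if_pos (mem_range.1 hd)]
              · refine Finset.sum_congr rfl fun d hd => ?_
                rw [if_neg (not_lt.2 (mem_Ico.1 hd).1)]
            refine h9.trans ?_
            rw [← Finset.sum_mul, ← Finset.sum_mul, geo]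
            have h10 : ∑ d ∈ Ico D₀ D, ((1 : ℝ) / 2) ^ (d + 1) ≤ (1 / 2) ^ D₀ := by
              have h11 := Finset.sum_range_add_sum_Ico (fun d => ((1 : ℝ) / 2) ^ (d + 1)) hD
              rw [geo, geo] at h11
              have h12 : (0 : ℝ) < (1 / 2) ^ D := by positivity
              linarith
            have h13 : (0 : ℝ) < (1 / 2) ^ D₀ := by positivity
            nlinarith
          have h8 : 3 / 2 * τ + 3 * (1 / 2) ^ D₀ ≤ δ / V * (5 / 16) := by
            have e1 : δ / (8 * V) = δ / V * (1 / 8) := by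
              field_simp
            have e2 : δ / (24 * V) = δ / V * (1 / 24) := by
              field_simp
            rw [e1] at hτ2
            rw [e2] at hD₀
            linarith
          have h9 := mul_le_mul_of_nonneg_left (h7.trans h8) z0
          linarith
  choose g hg hb using hch
  refine ⟨g, fun j d i => hg j d i, ?_⟩
  rw [cx_eq f w q r₀ P c α F hF]
  have h1 : ‖∑ j ∈ range P, starRingEnd ℂ (c j) * wm f w (kA q r₀ (α j))‖ ≤
      ∑ j ∈ range P, ‖c j‖ * ‖wm f w (kA q r₀ (α j))‖ := by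
    refine (norm_sum_le _ _).trans (Finset.sum_le_sum fun j _ => ?_)
    rw [norm_mul, RCLike.norm_conj]
  refine h1.trans ((Finset.sum_le_sum fun j _ => hb j).trans ?_)
  have e3 : ∑ j ∈ range P, 1 / (4 * a) * (∑ d' ∈ range D₀, ∑ i, ∑ d ∈ range D,
      (1 / 2) ^ (d + 1) * ‖wm (y d) w (fun t => kA q r₀ (S d' i) t * g j d' i t)‖ ^ 2) =
      1 / (4 * a) * ∑ j ∈ range P, ∑ d' ∈ range D₀, ∑ i, ∑ d ∈ range D,
        (1 / 2) ^ (d + 1) * ‖wm (y d) w (fun t => kA q r₀ (S d' i) t * g j d' i t)‖ ^ 2 :=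
    (Finset.mul_sum _ _ _).symm
  have e5 : ∑ j ∈ range P, 3 * (P : ℝ) * (∑ d' ∈ range D₀, ∑ i, EB.ind (∃ b : ℤ,
      ¬ ((q : ℤ) ∣ b) ∧ nd (α j - S d' i - (b : ℝ) / q) ≤ C₁ / 2 ^ w)) =
      3 * P * ∑ j ∈ range P, ∑ d' ∈ range D₀, ∑ i, EB.ind (∃ b : ℤ, ¬ ((q : ℤ) ∣ b) ∧
        nd (α j - S d' i - (b : ℝ) / q) ≤ C₁ / 2 ^ w) := (Finset.mul_sum _ _ _).symm
  rw [Finset.sum_add_distrib, Finset.sum_add_distrib, Finset.sum_add_distrib,
    Finset.sum_add_distrib, ← Finset.sum_mul, ← Finset.mul_sum (s := range P) (f := fun j =>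
      ‖c j‖ ^ 2), e3, e5, Finset.sum_const, card_range, nsmul_eq_mul]
  have hms : 0 ≤ ms w F := by
    unfold ms
    positivity
  have h2 : (∑ j ∈ range P, ‖c j‖) * (δ / V * (5 / 16)) ≤ 5 / 16 * (δ * ms w F) := by
    calc (∑ j ∈ range P, ‖c j‖) * (δ / V * (5 / 16)) ≤ V * ms w F * (δ / V * (5 / 16)) :=
          mul_le_mul_of_nonneg_right hsum (by positivity)
      _ = _ := by
          field_simp
  have h3 : a * ∑ j ∈ range P, ‖c j‖ ^ 2 ≤ 1 / 2 * (δ * ms w F) := by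
    have h4 : ∑ j ∈ range P, ‖c j‖ ^ 2 ≤ P * (V * ms w F) := by
      calc ∑ j ∈ range P, ‖c j‖ ^ 2 ≤ ∑ j ∈ range P, P * ‖c j‖ :=
            Finset.sum_le_sum fun j _ => by
              rw [sq]
              exact mul_le_mul_of_nonneg_right (hc j) (norm_nonneg _)
        _ = P * ∑ j ∈ range P, ‖c j‖ := by rw [Finset.mul_sum]
        _ ≤ _ := mul_le_mul_of_nonneg_left hsum (Nat.cast_nonneg _)
    have h5 : (P : ℝ) * (V * ms w F) ≤ (P + 1) * (V * ms w F) := by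
      have : 0 ≤ V * ms w F := by positivity
      nlinarith
    calc a * ∑ j ∈ range P, ‖c j‖ ^ 2 ≤ a * ((P + 1) * (V * ms w F)) :=
          mul_le_mul_of_nonneg_left (h4.trans h5) ha0.le
      _ = _ := by
          rw [ha]
          field_simp
  have h4 : 0 ≤ δ * ms w F := by positivity
  have h5 : (P : ℝ) * (3 * P * (∑ d' ∈ range D₀, EB.ind (∃ β : ℝ, FarT q w (S d') C₁ β ∧
      τ ≤ ‖wm (y d') w (kB q r₀ β)‖))) = 3 * P ^ 2 * ∑ d' ∈ range D₀, EB.ind (∃ β : ℝ,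
      FarT q w (S d') C₁ β ∧ τ ≤ ‖wm (y d') w (kB q r₀ β)‖) := by ring
  rw [h5]
  linarith

end Pool.Agent.H56.HB.XF
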