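import Pool.Agent.H56.HB.Targets

/-!
# Theorem (H0), block (c), row XRO: the cross terms of one level
-/

set_option autoImplicit false

namespace Pool.Agent.H56.HB

open Finset Pool.Agent.H93 Pool.Agent.H18.MR Pool.Agent.H93.DE Pool.Agent.H6.N4D Pool.Agent.H93.ES
open Pool.Agent.H22.GS
open Pool.Agent.H3.BT (NCt)

section av
variable {N : ℕ} [NeZero N]

lemma av_mono (f g : ZMod N → ℝ) (h : ∀ n, f n ≤ g n) : avZ f ≤ avZ g := by
  unfold avZ
  exact div_le_div_of_nonneg_right (Finset.sum_le_sum fun n _ => h n) (Nat.cast_nonneg _)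

lemma av_add (f g : ZMod N → ℝ) : avZ (fun n => f n + g n) = avZ f + avZ g := by
  unfold avZ
  rw [Finset.sum_add_distrib, add_div]

lemma av_mul (a : ℝ) (f : ZMod N → ℝ) : avZ (fun n => a * f n) = a * avZ f := by
  unfold avZ
  rw [← Finset.mul_sum, mul_div_assoc]

lemma av_sum {ι : Type*} (s : Finset ι) (F : ι → ZMod N → ℝ) :
    avZ (fun n => ∑ i ∈ s, F i n) = ∑ i ∈ s, avZ (F i) := by
  unfold avZ
  rw [Finset.sum_comm, Finset.sum_div]

lemma av_const (a : ℝ) : avZ (fun _ : ZMod N => a) = a := by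
  unfold avZ
  rw [Finset.sum_const, Finset.card_univ, ZMod.card, nsmul_eq_mul]
  have h : (N : ℝ) ≠ 0 := by exact_mod_cast NeZero.ne N
  field_simp

lemma av_le (f : ZMod N → ℝ) (a : ℝ) (h : ∀ n, f n ≤ a) : avZ f ≤ a := by
  have := av_mono f (fun _ => a) h
  rwa [av_const] at this

end av

lemma ind_nn (p : Prop) : 0 ≤ EB.ind p := by
  unfold EB.ind
  split_ifs <;> norm_num

lemma ind_mono {p q : Prop} (h : p → q) : EB.ind p ≤ EB.ind q := by
  unfold EB.ind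
  by_cases hp : p
  · rw [if_pos hp, if_pos (h hp)]
  · rw [if_neg hp]
    split_ifs <;> norm_num

lemma infT_nn {N : ℕ} [NeZero N] (c : ℕ) (x : ZMod N → Bool) (w : ℕ)
    (h : ∀ (N R m : ℕ) [NeZero N] (x : ZMod N → Bool) (d : Fin R → ℕ),
      0 ≤ info (tup x d) (2 ^ m) (primorial (2 ^ m)) (pr m)) : 0 ≤ infT c x w := by
  unfold infT
  refine Finset.sum_nonneg fun m _ => div_nonneg ?_ (by positivity)
  unfold avE
  exact div_nonneg (Finset.sum_nonneg fun e _ => h _ _ _ _ _) (by positivity)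

/-- the geometric sum of the weights of the digits -/
lemma geo1 (D : ℕ) : ∑ d ∈ range D, ((1 : ℝ) / 2) ^ (d + 1) ≤ 1 := by
  have h : ∀ D : ℕ, ∑ d ∈ range D, ((1 : ℝ) / 2) ^ (d + 1) = 1 - (1 / 2) ^ D := by
    intro D
    induction D with
    | zero => simp
    | succ D ih =>
      rw [Finset.sum_range_succ, ih, pow_succ]
      ring
  rw [h]
  have : (0 : ℝ) < (1 / 2) ^ D := by positivity
  linarith

/-- exponentially small numbers are small against `log w / w` -/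
lemma small_ev (k : ℕ) (hk : 1 ≤ k) : ∃ w₀ : ℕ, ∀ w, w₀ ≤ w →
    ((1 : ℝ) / 2) ^ (w / k) ≤ Real.log w / w := by
  have h1 : Filter.Tendsto (fun n : ℕ => (n : ℝ) ^ 1 * (1 / 2 : ℝ) ^ n) Filter.atTop
      (nhds 0) := tendsto_pow_const_mul_const_pow_of_abs_lt_one 1 (by
        rw [abs_of_pos (by norm_num)]
        norm_num)
  have hk0 : (0 : ℝ) < k := by exact_mod_cast hk
  have h2 := h1.eventually_lt_const (show (0 : ℝ) < 1 / (4 * k) by positivity)
  rw [Filter.eventually_atTop] at h2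
  obtain ⟨a, ha⟩ := h2
  refine ⟨k * (a + 1) + 3, fun w hw => ?_⟩
  have hw1 : 1 ≤ w := by omega
  have hw0 : (0 : ℝ) < w := by exact_mod_cast hw1
  have h3 : a ≤ w / k := by
    rw [Nat.le_div_iff_mul_le (by omega)]
    nlinarith
  have h4 := ha _ h3
  rw [pow_one] at h4
  have h5 : w < (w / k + 1) * k := by
    have := Nat.lt_div_mul_add (a := w) (b := k) (by omega)
    calc w < w / k * k + k := this
      _ = (w / k + 1) * k := by ring
  have h6 : (w : ℝ) < (((w / k : ℕ) : ℝ) + 1) * k := by exact_mod_cast h5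
  have h7 : (1 : ℝ) ≤ ((w / k : ℕ) : ℝ) := by
    have : 1 ≤ w / k := by
      rw [Nat.le_div_iff_mul_le (by omega)]
      nlinarith
    exact_mod_cast this
  have hlog : (1 : ℝ) ≤ Real.log w := by
    have h8 : Real.exp 1 ≤ w := by
      have h9 : (3 : ℝ) ≤ w := by
        have : 3 ≤ w := by omega
        exact_mod_cast this
      have := Real.exp_one_lt_d9
      linarith
    exact (Real.le_log_iff_exp_le hw0).2 h8
  rw [le_div_iff₀ hw0]
  have hp : (0 : ℝ) < (1 / 2) ^ (w / k) := by positivity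
  have h10 : ((1 : ℝ) / 2) ^ (w / k) * w ≤ (1 / 2) ^ (w / k) * ((((w / k : ℕ) : ℝ) + 1) * k) :=
    mul_le_mul_of_nonneg_left h6.le hp.le
  have h11 : ((1 : ℝ) / 2) ^ (w / k) * ((((w / k : ℕ) : ℝ) + 1) * k) ≤
      2 * k * (((w / k : ℕ) : ℝ) * (1 / 2) ^ (w / k)) := by
    have : ((((w / k : ℕ) : ℝ) + 1) * k) ≤ 2 * k * ((w / k : ℕ) : ℝ) := by nlinarith
    calc ((1 : ℝ) / 2) ^ (w / k) * ((((w / k : ℕ) : ℝ) + 1) * k) ≤
          (1 / 2) ^ (w / k) * (2 * k * ((w / k : ℕ) : ℝ)) :=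
          mul_le_mul_of_nonneg_left this hp.le
      _ = _ := by ring
  have h12 : 2 * (k : ℝ) * (((w / k : ℕ) : ℝ) * (1 / 2) ^ (w / k)) ≤ 2 * k * (1 / (4 * k)) :=
    mul_le_mul_of_nonneg_left h4.le (by positivity)
  have h13 : 2 * (k : ℝ) * (1 / (4 * k)) = 1 / 2 := by
    field_simp
    norm_num
  linarith

lemma bw_zero (w : ℕ) {S V : ℝ} (hS : 0 ≤ S) (hV : 0 ≤ V) : BW w S V (fun _ => 0) := by
  refine ⟨fun t _ => ?_, ?_⟩
  · rw [norm_zero]
    exact hS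
  · rw [Finset.sum_congr rfl fun t _ => by rw [sub_zero, norm_zero], Finset.sum_const_zero]
    exact hV

theorem pf_XRO (hCOV : T_COVt) (hLVA : T_LVAt) (hLVB : T_LVBt)
    (hB : T_BAD) (hN : T_XNR) (hF : T_XFR)
    (hinfo : ∀ (N R m : ℕ) [NeZero N] (x : ZMod N → Bool) (d : Fin R → ℕ),
      0 ≤ info (tup x d) (2 ^ m) (primorial (2 ^ m)) (pr m)) : T_XRO := by
  intro P V δ hV hδ
  obtain ⟨Cn, hCn, hN⟩ := hN P V δ hV hδ
  obtain ⟨D₀, τ, hτ0, hτ1, hF⟩ := hF P V δ hV hδ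
  obtain ⟨k, C₀, hk, hC₀, hCOV⟩ := hCOV τ hτ0 hτ1
  obtain ⟨c₁, hLVB⟩ := hLVB τ C₀ k hτ0 hτ1 hC₀
  refine ⟨max 30 c₁, fun c hc => ?_⟩
  obtain ⟨CB, C₁, wB, hCB, hC₁, hLVB⟩ := hLVB c ((le_max_right _ _).trans hc)
  obtain ⟨C₂, hC₂⟩ : ∃ C₂ : ℝ, C₂ = max C₁ C₀ + 1 := ⟨_, rfl⟩
  have hC02 : C₀ < C₂ := by
    have := le_max_right C₁ C₀
    linarith
  have hC12 : C₁ ≤ C₂ := by
    have := le_max_left C₁ C₀
    linarith
  have hC20 : 0 < C₂ := by linarith
  obtain ⟨CF, hCF, hF⟩ := hF k C₀ C₂ hC₀ hC02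
  obtain ⟨CA, wA, hCA, hLVA⟩ := hLVA c ((le_max_left _ _).trans hc) (7 * C₂ + 1) (by positivity)
  obtain ⟨wD, hBad⟩ := hB C₂
  obtain ⟨w1, hw1⟩ := small_ev 20000 (by norm_num)
  obtain ⟨w2, hw2⟩ := small_ev (10 ^ 5) (by norm_num)
  refine ⟨Cn * (P * CA) + CF * (P * (D₀ * (k * CA))) + 3 * P ^ 2 * (D₀ * (CB + 1)) +
    3 * P * (P * (D₀ * k)) + 1, wB + wA + wD + w1 + w2 + D₀ + 200, by positivity, ?_⟩
  intro N w D _ κ x f h φ u hw hD hdvd hκ hf hh hNF
  obtain ⟨L, hL⟩ : ∃ L : ℝ, L = Real.log w / w := ⟨_, rfl⟩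
  have hs1 := hw1 w (by omega)
  have hs2 := hw2 w (by omega)
  rw [← hL] at hs1 hs2
  have hL0 : 0 ≤ L := le_trans (by positivity) hs1
  have hh0 : 0 ≤ h := (infT_nn c (x 0) w hinfo).trans (hh 0 (by omega))
  -- the covers
  have hy1 : ∀ d (n : ZMod N) t, |ltr (x d) n t| ≤ 1 := by
    intro d n t
    unfold ltr sg
    split_ifs <;> norm_num
  have hS : ∀ d (n : ZMod N), ∃ S : Fin k → ℝ, CovT (ltr (x d) n) w S C₀ (τ / 2) :=
    fun d n => hCOV w (ltr (x d) n) (hy1 d n)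
  choose S hS using hS
  have hg : ∀ n, ∃ γ : ℕ → ℝ, ∀ q ∈ EB.QQ w, NN w P V γ (fe P (φ n) (u n) q) ∨
    ∑ j ∈ range P, ‖u n j q‖ ≤ V * ms w (fe P (φ n) (u n) q) := fun n => (hNF n).nf
  choose γ hγ using hg
  have hfn : ∀ n t, f (n + ((t : ℕ) : ZMod N)) = ∑ d ∈ range D, κ d * ltr (x d) n t := by
    intro n t
    rw [hf]
    rfl
  -- the bound for one prime and one window
  have key : ∀ (n : ZMod N) (q : ℕ), ∃ (g : ℕ → ℕ → ℂ) (g' : ℕ → ℕ → Fin k → ℕ → ℂ),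
      q ∈ EB.QQ w → (∀ a, BW w 1 1 (g a)) ∧ (∀ j d i, BW w 1 (7 * C₂) (g' j d i)) ∧
      ‖cx (fun t => f (n + (t : ZMod N))) w q n.val (fe P (φ n) (u n) q)‖ ≤
        δ * ms w (fe P (φ n) (u n) q) +
        Cn * (∑ a ∈ range P, ∑ d ∈ range D, (1 / 2) ^ (d + 1) *
          ‖wm (ltr (x d) n) w (fun t => kA q n.val (γ n a) t * g a t)‖ ^ 2) +
        CF * (∑ j ∈ range P, ∑ d' ∈ range D₀, ∑ i, ∑ d ∈ range D, (1 / 2) ^ (d + 1) *
          ‖wm (ltr (x d) n) w (fun t => kA q n.val (S d' n i) t * g' j d' i t)‖ ^ 2) +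
        3 * P ^ 2 * (∑ d' ∈ range D₀, EB.ind (∃ β : ℝ, FarT q w (S d' n) C₂ β ∧
          τ ≤ ‖wm (ltr (x d') n) w (kB q n.val β)‖)) +
        3 * P * (∑ j ∈ range P, ∑ d' ∈ range D₀, ∑ i, EB.ind (∃ b : ℤ, ¬ ((q : ℤ) ∣ b) ∧
          nd (φ n j q - S d' n i - (b : ℝ) / q) ≤ C₂ / 2 ^ w)) := by
    intro n q
    by_cases hq : q ∈ EB.QQ w
    swap
    · exact ⟨fun _ _ => 0, fun _ _ _ _ => 0, fun h => absurd h hq⟩
    have hA : ∀ (g : ℕ → ℕ → ℂ), 0 ≤ Cn * (∑ a ∈ range P, ∑ d ∈ range D, (1 / 2) ^ (d + 1) *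
          ‖wm (ltr (x d) n) w (fun t => kA q n.val (γ n a) t * g a t)‖ ^ 2) := fun g =>
      mul_nonneg hCn (Finset.sum_nonneg fun a _ => Finset.sum_nonneg fun d _ => by positivity)
    have hA' : ∀ (g' : ℕ → ℕ → Fin k → ℕ → ℂ), 0 ≤ CF * (∑ j ∈ range P, ∑ d' ∈ range D₀,
        ∑ i, ∑ d ∈ range D, (1 / 2) ^ (d + 1) *
          ‖wm (ltr (x d) n) w (fun t => kA q n.val (S d' n i) t * g' j d' i t)‖ ^ 2) := fun g' =>
      mul_nonneg hCF (Finset.sum_nonneg fun j _ => Finset.sum_nonneg fun d' _ =>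
        Finset.sum_nonneg fun i _ => Finset.sum_nonneg fun d _ => by positivity)
    have hI : 0 ≤ 3 * (P : ℝ) ^ 2 * (∑ d' ∈ range D₀, EB.ind (∃ β : ℝ,
        FarT q w (S d' n) C₂ β ∧ τ ≤ ‖wm (ltr (x d') n) w (kB q n.val β)‖)) :=
      mul_nonneg (by positivity) (Finset.sum_nonneg fun d' _ => ind_nn _)
    have hI' : 0 ≤ 3 * (P : ℝ) * (∑ j ∈ range P, ∑ d' ∈ range D₀, ∑ i, EB.ind (∃ b : ℤ,
        ¬ ((q : ℤ) ∣ b) ∧ nd (φ n j q - S d' n i - (b : ℝ) / q) ≤ C₂ / 2 ^ w)) :=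
      mul_nonneg (by positivity) (Finset.sum_nonneg fun j _ => Finset.sum_nonneg fun d' _ =>
        Finset.sum_nonneg fun i _ => ind_nn _)
    have hq1 : 1 ≤ q ∧ q ≤ 2 ^ w := by
      unfold EB.QQ at hq
      rw [mem_filter, mem_Ioc] at hq
      exact ⟨hq.2.one_le, hq.1.2.trans (Nat.pow_le_pow_right (by norm_num) (Nat.div_le_self _ _))⟩
    rcases hγ n q hq with h1 | h1
    · obtain ⟨g, hg, hb⟩ := hN w q n.val D κ (fun d => ltr (x d) n)
        (fun t => f (n + (t : ZMod N))) (γ n) (fe P (φ n) (u n) q) hκ (hfn n) h1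
      refine ⟨g, fun _ _ _ _ => 0, fun _ => ⟨hg, fun j d i => bw_zero w zero_le_one
        (by positivity), ?_⟩⟩
      have := hA' (fun _ _ _ _ => 0)
      linarith
    · obtain ⟨g', hg', hb⟩ := hF w q n.val D κ (fun d => ltr (x d) n)
        (fun t => f (n + (t : ZMod N))) (fun d => S d n) (fun j => u n j q) (fun j => φ n j q)
        (fe P (φ n) (u n) q) (by omega) hq1.1 hq1.2 hκ (fun d t => hy1 d n t) (hfn n)
        (fun d _ => hS d n) (fun j => (hNF n).cb j q) (fun t => rfl) h1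
      refine ⟨fun _ _ => 0, g', fun _ => ⟨fun a => bw_zero w zero_le_one zero_le_one, hg', ?_⟩⟩
      have := hA (fun _ _ => 0)
      linarith
  choose g g' hgg using key
  -- the level
  have hlev : avZ (fun n => ∑ q ∈ EB.QQ w, 1 / (q : ℝ) *
      ‖cx (fun t => f (n + (t : ZMod N))) w q n.val (fe P (φ n) (u n) q)‖) ≤
      δ * avZ (fun n => ∑ q ∈ EB.QQ w, 1 / (q : ℝ) * ms w (fe P (φ n) (u n) q)) +
      Cn * (∑ a ∈ range P, ∑ d ∈ range D, (1 / 2) ^ (d + 1) *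
        avZ (fun n => ∑ q ∈ EB.QQ w, 1 / (q : ℝ) *
          ‖wm (ltr (x d) n) w (fun t => kA q n.val (γ n a) t * g n q a t)‖ ^ 2)) +
      CF * (∑ j ∈ range P, ∑ d' ∈ range D₀, ∑ i : Fin k, ∑ d ∈ range D, (1 / 2) ^ (d + 1) *
        avZ (fun n => ∑ q ∈ EB.QQ w, 1 / (q : ℝ) *
          ‖wm (ltr (x d) n) w (fun t => kA q n.val (S d' n i) t * g' n q j d' i t)‖ ^ 2)) +
      3 * P ^ 2 * (∑ d' ∈ range D₀, avZ (fun n => ∑ q ∈ EB.QQ w, 1 / (q : ℝ) *
        EB.ind (∃ β : ℝ, FarT q w (S d' n) C₂ β ∧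
          τ ≤ ‖wm (ltr (x d') n) w (kB q n.val β)‖))) +
      3 * P * (∑ j ∈ range P, ∑ d' ∈ range D₀, ∑ i : Fin k,
        avZ (fun n => ∑ q ∈ EB.QQ w, 1 / (q : ℝ) * EB.ind (∃ b : ℤ, ¬ ((q : ℤ) ∣ b) ∧
          nd (φ n j q - S d' n i - (b : ℝ) / q) ≤ C₂ / 2 ^ w))) := by
    have h1 := av_mono (fun n => ∑ q ∈ EB.QQ w, 1 / (q : ℝ) *
      ‖cx (fun t => f (n + (t : ZMod N))) w q n.val (fe P (φ n) (u n) q)‖)
      (fun n => ∑ q ∈ EB.QQ w, 1 / (q : ℝ) * (δ * ms w (fe P (φ n) (u n) q) +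
        Cn * (∑ a ∈ range P, ∑ d ∈ range D, (1 / 2) ^ (d + 1) *
          ‖wm (ltr (x d) n) w (fun t => kA q n.val (γ n a) t * g n q a t)‖ ^ 2) +
        CF * (∑ j ∈ range P, ∑ d' ∈ range D₀, ∑ i : Fin k, ∑ d ∈ range D, (1 / 2) ^ (d + 1) *
          ‖wm (ltr (x d) n) w (fun t => kA q n.val (S d' n i) t * g' n q j d' i t)‖ ^ 2) +
        3 * P ^ 2 * (∑ d' ∈ range D₀, EB.ind (∃ β : ℝ, FarT q w (S d' n) C₂ β ∧
          τ ≤ ‖wm (ltr (x d') n) w (kB q n.val β)‖)) +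
        3 * P * (∑ j ∈ range P, ∑ d' ∈ range D₀, ∑ i : Fin k, EB.ind (∃ b : ℤ,
          ¬ ((q : ℤ) ∣ b) ∧ nd (φ n j q - S d' n i - (b : ℝ) / q) ≤ C₂ / 2 ^ w))))
      (fun n => Finset.sum_le_sum fun q hq =>
        mul_le_mul_of_nonneg_left (hgg n q hq).2.2 (by positivity))
    refine h1.trans (le_of_eq ?_)
    simp only [mul_add, Finset.sum_add_distrib, av_add]
    congr 1
    · congr 1
      · congr 1
        · congr 1
          · rw [← av_mul]
            congr 1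
            funext n
            rw [Finset.mul_sum]
            refine Finset.sum_congr rfl fun q _ => by ring
          · rw [Finset.mul_sum]
            simp only [Finset.mul_sum, ← av_mul, ← av_sum]
            congr 1
            funext n
            rw [Finset.sum_comm]
            refine Finset.sum_congr rfl fun a _ => ?_
            rw [Finset.sum_comm]
            refine Finset.sum_congr rfl fun d _ => ?_
            refine Finset.sum_congr rfl fun q _ => by ring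
        · simp only [Finset.mul_sum, ← av_mul, ← av_sum]
          congr 1
          funext n
          rw [Finset.sum_comm]
          refine Finset.sum_congr rfl fun a _ => ?_
          rw [Finset.sum_comm]
          refine Finset.sum_congr rfl fun d' _ => ?_
          rw [Finset.sum_comm]
          refine Finset.sum_congr rfl fun i _ => ?_
          rw [Finset.sum_comm]
          refine Finset.sum_congr rfl fun d _ => ?_
          refine Finset.sum_congr rfl fun q _ => by ring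
      · simp only [Finset.mul_sum, ← av_mul, ← av_sum]
        congr 1
        funext n
        rw [Finset.sum_comm]
        refine Finset.sum_congr rfl fun d' _ => ?_
        refine Finset.sum_congr rfl fun q _ => by ring
    · simp only [Finset.mul_sum, ← av_mul, ← av_sum]
      congr 1
      funext n
      rw [Finset.sum_comm]
      refine Finset.sum_congr rfl fun a _ => ?_
      rw [Finset.sum_comm]
      refine Finset.sum_congr rfl fun d' _ => ?_
      rw [Finset.sum_comm]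
      refine Finset.sum_congr rfl fun i _ => ?_
      refine Finset.sum_congr rfl fun q _ => by ring
  -- the tests (A)
  have hAll : ∀ (d : ℕ), d < D → ∀ (α : ZMod N → ℝ) (gg : ZMod N → ℕ → ℕ → ℂ),
      (∀ n, ∀ q ∈ EB.QQ w, BW w 1 (7 * C₂ + 1) (gg n q)) →
      avZ (fun n => ∑ q ∈ EB.QQ w, 1 / (q : ℝ) *
          ‖wm (ltr (x d) n) w (fun t => kA q n.val (α n) t * gg n q t)‖ ^ 2) ≤ CA * (h + L) := by
    intro d hd α gg hgb
    have h1 := hLVA N w (x d) α gg (by omega) hdvd (fun n q hq => hgb n q hq)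
    rw [← hL] at h1
    refine h1.trans (mul_le_mul_of_nonneg_left ?_ hCA.le)
    have := hh d hd
    linarith
  have hhL : 0 ≤ h + L := by linarith
  have hdig : ∀ (F : ℕ → ℝ), (∀ d, d < D → F d ≤ CA * (h + L)) →
      ∑ d ∈ range D, (1 / 2 : ℝ) ^ (d + 1) * F d ≤ CA * (h + L) := by
    intro F hFd
    calc ∑ d ∈ range D, (1 / 2 : ℝ) ^ (d + 1) * F d ≤
          ∑ d ∈ range D, (1 / 2 : ℝ) ^ (d + 1) * (CA * (h + L)) :=
          Finset.sum_le_sum fun d hd => mul_le_mul_of_nonneg_left (hFd d (mem_range.1 hd))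
            (by positivity)
      _ = (∑ d ∈ range D, (1 / 2 : ℝ) ^ (d + 1)) * (CA * (h + L)) := by rw [Finset.sum_mul]
      _ ≤ 1 * (CA * (h + L)) := mul_le_mul_of_nonneg_right (geo1 D) (by positivity)
      _ = _ := one_mul _
  have t1 : ∑ a ∈ range P, ∑ d ∈ range D, (1 / 2 : ℝ) ^ (d + 1) *
        avZ (fun n => ∑ q ∈ EB.QQ w, 1 / (q : ℝ) *
          ‖wm (ltr (x d) n) w (fun t => kA q n.val (γ n a) t * g n q a t)‖ ^ 2) ≤
      P * (CA * (h + L)) := by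
    have h1 : ∀ a ∈ range P, ∑ d ∈ range D, (1 / 2 : ℝ) ^ (d + 1) *
        avZ (fun n => ∑ q ∈ EB.QQ w, 1 / (q : ℝ) *
          ‖wm (ltr (x d) n) w (fun t => kA q n.val (γ n a) t * g n q a t)‖ ^ 2) ≤
        CA * (h + L) := by
      intro a _
      refine hdig _ fun d hd => ?_
      refine hAll d hd (fun n => γ n a) (fun n q => g n q a) fun n q hq => ?_
      have h2 := (hgg n q hq).1 a
      exact ⟨h2.1, h2.2.trans (by linarith)⟩
    refine (Finset.sum_le_sum h1).trans ?_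
    rw [Finset.sum_const, card_range, nsmul_eq_mul]
  have t2 : ∑ j ∈ range P, ∑ d' ∈ range D₀, ∑ i : Fin k, ∑ d ∈ range D,
        (1 / 2 : ℝ) ^ (d + 1) * avZ (fun n => ∑ q ∈ EB.QQ w, 1 / (q : ℝ) *
          ‖wm (ltr (x d) n) w (fun t => kA q n.val (S d' n i) t * g' n q j d' i t)‖ ^ 2) ≤
      P * (D₀ * (k * (CA * (h + L)))) := by
    have h1 : ∀ j ∈ range P, ∑ d' ∈ range D₀, ∑ i : Fin k, ∑ d ∈ range D,
        (1 / 2 : ℝ) ^ (d + 1) * avZ (fun n => ∑ q ∈ EB.QQ w, 1 / (q : ℝ) *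
          ‖wm (ltr (x d) n) w (fun t => kA q n.val (S d' n i) t * g' n q j d' i t)‖ ^ 2) ≤
        D₀ * (k * (CA * (h + L))) := by
      intro j _
      have h2 : ∀ d' ∈ range D₀, ∑ i : Fin k, ∑ d ∈ range D,
          (1 / 2 : ℝ) ^ (d + 1) * avZ (fun n => ∑ q ∈ EB.QQ w, 1 / (q : ℝ) *
          ‖wm (ltr (x d) n) w (fun t => kA q n.val (S d' n i) t * g' n q j d' i t)‖ ^ 2) ≤
          k * (CA * (h + L)) := by
        intro d' _
        have h3 : ∀ i ∈ (univ : Finset (Fin k)), ∑ d ∈ range D,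
            (1 / 2 : ℝ) ^ (d + 1) * avZ (fun n => ∑ q ∈ EB.QQ w, 1 / (q : ℝ) *
            ‖wm (ltr (x d) n) w (fun t => kA q n.val (S d' n i) t * g' n q j d' i t)‖ ^ 2) ≤
            CA * (h + L) := by
          intro i _
          refine hdig _ fun d hd => ?_
          refine hAll d hd (fun n => S d' n i) (fun n q => g' n q j d' i) fun n q hq => ?_
          have h4 := (hgg n q hq).2.1 j d' i
          exact ⟨h4.1, h4.2.trans (by linarith)⟩
        refine (Finset.sum_le_sum h3).trans ?_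
        rw [Finset.sum_const, Finset.card_univ, Fintype.card_fin, nsmul_eq_mul]
      refine (Finset.sum_le_sum h2).trans ?_
      rw [Finset.sum_const, card_range, nsmul_eq_mul]
    refine (Finset.sum_le_sum h1).trans ?_
    rw [Finset.sum_const, card_range, nsmul_eq_mul]
  -- the far shares
  have t3 : ∑ d' ∈ range D₀, avZ (fun n => ∑ q ∈ EB.QQ w, 1 / (q : ℝ) *
        EB.ind (∃ β : ℝ, FarT q w (S d' n) C₂ β ∧
          τ ≤ ‖wm (ltr (x d') n) w (kB q n.val β)‖)) ≤ D₀ * ((CB + 1) * (h + L)) := by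
    have h1 : ∀ d' ∈ range D₀, avZ (fun n => ∑ q ∈ EB.QQ w, 1 / (q : ℝ) *
        EB.ind (∃ β : ℝ, FarT q w (S d' n) C₂ β ∧
          τ ≤ ‖wm (ltr (x d') n) w (kB q n.val β)‖)) ≤ (CB + 1) * (h + L) := by
      intro d' hd'
      have hd2 : d' < D := by
        have := mem_range.1 hd'
        omega
      have h2 := hLVB N w (x d') (S d') (by omega) hdvd (hS d')
      have h3 : avZ (fun n => ∑ q ∈ EB.QQ w, 1 / (q : ℝ) *
          EB.ind (∃ β : ℝ, FarT q w (S d' n) C₂ β ∧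
          τ ≤ ‖wm (ltr (x d') n) w (kB q n.val β)‖)) ≤
          avZ (fun n => ∑ q ∈ EB.QQ w, 1 / (q : ℝ) *
          EB.ind (∃ β : ℝ, FarT q w (S d' n) C₁ β ∧
          τ ≤ ‖wm (ltr (x d') n) w (kB q n.val β)‖)) := by
        refine av_mono _ _ fun n => Finset.sum_le_sum fun q _ =>
          mul_le_mul_of_nonneg_left (ind_mono ?_) (by positivity)
        rintro ⟨β, h4, h5⟩
        refine ⟨β, fun i b => le_trans ?_ (h4 i b), h5⟩
        exact div_le_div_of_nonneg_right hC12 (by positivity)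
      have h6 := hh d' hd2
      have h7 : CB * infT c (x d') w ≤ CB * h := mul_le_mul_of_nonneg_left h6 hCB.le
      have h8 : 0 ≤ CB * L := mul_nonneg hCB.le hL0
      calc _ ≤ _ := h3
        _ ≤ _ := h2
        _ ≤ CB * h + L := by linarith
        _ ≤ (CB + 1) * (h + L) := by nlinarith
    refine (Finset.sum_le_sum h1).trans ?_
    rw [Finset.sum_const, card_range, nsmul_eq_mul]
  -- the bad lifts
  have t4 : ∑ j ∈ range P, ∑ d' ∈ range D₀, ∑ i : Fin k,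
        avZ (fun n => ∑ q ∈ EB.QQ w, 1 / (q : ℝ) * EB.ind (∃ b : ℤ, ¬ ((q : ℤ) ∣ b) ∧
          nd (φ n j q - S d' n i - (b : ℝ) / q) ≤ C₂ / 2 ^ w)) ≤
      P * (D₀ * (k * (h + L))) := by
    have h1 : ∀ j ∈ range P, ∑ d' ∈ range D₀, ∑ i : Fin k,
        avZ (fun n => ∑ q ∈ EB.QQ w, 1 / (q : ℝ) * EB.ind (∃ b : ℤ, ¬ ((q : ℤ) ∣ b) ∧
          nd (φ n j q - S d' n i - (b : ℝ) / q) ≤ C₂ / 2 ^ w)) ≤ D₀ * (k * (h + L)) := by
      intro j hj
      have h2 : ∀ d' ∈ range D₀, ∑ i : Fin k,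
          avZ (fun n => ∑ q ∈ EB.QQ w, 1 / (q : ℝ) * EB.ind (∃ b : ℤ, ¬ ((q : ℤ) ∣ b) ∧
          nd (φ n j q - S d' n i - (b : ℝ) / q) ≤ C₂ / 2 ^ w)) ≤ k * (h + L) := by
        intro d' _
        have h3 : ∀ i ∈ (univ : Finset (Fin k)),
            avZ (fun n => ∑ q ∈ EB.QQ w, 1 / (q : ℝ) * EB.ind (∃ b : ℤ, ¬ ((q : ℤ) ∣ b) ∧
            nd (φ n j q - S d' n i - (b : ℝ) / q) ≤ C₂ / 2 ^ w)) ≤ h + L := by
          intro i _
          refine av_le _ _ fun n => ?_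
          have h4 := hBad w (φ n j) (S d' n i) (by omega) ((hNF n).nc j (mem_range.1 hj))
          linarith
        refine (Finset.sum_le_sum h3).trans ?_
        rw [Finset.sum_const, Finset.card_univ, Fintype.card_fin, nsmul_eq_mul]
      refine (Finset.sum_le_sum h2).trans ?_
      rw [Finset.sum_const, card_range, nsmul_eq_mul]
    refine (Finset.sum_le_sum h1).trans ?_
    rw [Finset.sum_const, card_range, nsmul_eq_mul]
  rw [← hL]
  have u1 := mul_le_mul_of_nonneg_left t1 hCn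
  have u2 := mul_le_mul_of_nonneg_left t2 hCF
  have u3 := mul_le_mul_of_nonneg_left t3 (show (0 : ℝ) ≤ 3 * P ^ 2 by positivity)
  have u4 := mul_le_mul_of_nonneg_left t4 (show (0 : ℝ) ≤ 3 * P by positivity)
  refine hlev.trans ?_
  have e : δ * avZ (fun n => ∑ q ∈ EB.QQ w, 1 / (q : ℝ) * ms w (fe P (φ n) (u n) q)) +
      (Cn * (P * CA) + CF * (P * (D₀ * (k * CA))) + 3 * P ^ 2 * (D₀ * (CB + 1)) +
        3 * P * (P * (D₀ * k)) + 1) * (h + L) =
      δ * avZ (fun n => ∑ q ∈ EB.QQ w, 1 / (q : ℝ) * ms w (fe P (φ n) (u n) q)) +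
      Cn * (P * (CA * (h + L))) + CF * (P * (D₀ * (k * (CA * (h + L))))) +
      3 * P ^ 2 * (D₀ * ((CB + 1) * (h + L))) + 3 * P * (P * (D₀ * (k * (h + L)))) +
      (h + L) := by ring
  rw [e]
  linarith

end Pool.Agent.H56.HB
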