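import Pool.Agent.H22.GS.Targets
import Pool.Agent.H3.BT.Defs

/-!
# Theorem (H0), MP_c59857_nt, part (c): the cross term row, statements

One level `w` on the cyclic group. `f` is a function with values in `[-1, 1]`, given by digits:
`f n = sum over d < D of κ d sg (x d n)`, `0 ≤ κ d ≤ (1/2) ^ (d + 1)`. The families are sums of `P`
exponentials for every prime, with the properties (N) or (F).
-/

set_option autoImplicit false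

namespace Pool.Agent.H56.HB

open Finset Pool.Agent.H93 Pool.Agent.H18.MR Pool.Agent.H93.DE Pool.Agent.H6.N4D Pool.Agent.H93.ES
open Pool.Agent.H22.GS
open Pool.Agent.H3.BT (NCt)

/-! ## definitions -/

/-- the sum of the exponentials of the prime `q` at the place `t` of the window -/
noncomputable def fe (P : ℕ) (φ : ℕ → ℕ → ℝ) (u : ℕ → ℕ → ℂ) (q t : ℕ) : ℂ :=
  ∑ j ∈ range P, u j q * ee (φ j q * t)

/-- the mean square on the window -/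
noncomputable def ms (w : ℕ) (F : ℕ → ℂ) : ℝ := (∑ t ∈ range (2 ^ w), ‖F t‖ ^ 2) / 2 ^ w

/-- the correlation of `f D_q` with `F` on the window which begins at the residue `r₀` -/
noncomputable def cx (f : ℕ → ℝ) (w q r₀ : ℕ) (F : ℕ → ℂ) : ℂ :=
  wm f w (fun t => (DR q (r₀ + t) : ℂ) * starRingEnd ℂ (F t))

/-- weights of norm at most `S` and of variation at most `V` on the window -/
def BW (w : ℕ) (S V : ℝ) (g : ℕ → ℂ) : Prop :=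
  (∀ t < 2 ^ w, ‖g t‖ ≤ S) ∧ ∑ t ∈ range (2 ^ w - 1), ‖g (t + 1) - g t‖ ≤ V

/-- (N): the sum of exponentials `F` is a sum of `P` weights of bounded variation times
exponentials with the frequencies `γ`, the weights are bounded by the mean square of `F` -/
def NN (w P : ℕ) (V : ℝ) (γ : ℕ → ℝ) (F : ℕ → ℂ) : Prop := ∃ G : ℕ → ℕ → ℂ,
  (∀ t < 2 ^ w, F t = ∑ a ∈ range P, G a t * ee (γ a * t)) ∧
  ∀ a < P, BW w (V * √(ms w F)) (V * √(ms w F)) (G a)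

/-- families with the properties (N) or (F) -/
structure NF (w P : ℕ) (V : ℝ) (φ : ℕ → ℕ → ℝ) (u : ℕ → ℕ → ℂ) : Prop where
  cb : ∀ j q, ‖u j q‖ ≤ P
  nc : ∀ j < P, NCt w (φ j)
  nf : ∃ γ : ℕ → ℝ, ∀ q ∈ EB.QQ w, NN w P V γ (fe P φ u q) ∨
    ∑ j ∈ range P, ‖u j q‖ ≤ V * ms w (fe P φ u q)

/-! ## one prime, one window -/

/-- BAD. The primes for which a good lift is near to a fixed frequency plus a fraction with the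
denominator `q`. -/
def T_BAD : Prop := ∀ C : ℝ, ∃ w₀ : ℕ, ∀ (w : ℕ) (α : ℕ → ℝ) (S : ℝ), w₀ ≤ w → NCt w α →
  ∑ q ∈ EB.QQ w, 1 / (q : ℝ) * EB.ind (∃ b : ℤ, ¬ ((q : ℤ) ∣ b) ∧
    nd (α q - S - (b : ℝ) / q) ≤ C / 2 ^ w) ≤ (1 / 2) ^ (w / 20000)

/-- XNR. One prime with the property (N). -/
def T_XNR : Prop := ∀ (P : ℕ) (V δ : ℝ), 1 ≤ V → 0 < δ → ∃ C : ℝ, 0 ≤ C ∧
  ∀ (w q r₀ D : ℕ) (κ : ℕ → ℝ) (y : ℕ → ℕ → ℝ) (f : ℕ → ℝ) (γ : ℕ → ℝ) (F : ℕ → ℂ),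
  (∀ d, 0 ≤ κ d ∧ κ d ≤ (1 / 2) ^ (d + 1)) → (∀ t, f t = ∑ d ∈ range D, κ d * y d t) →
  NN w P V γ F →
  ∃ g : ℕ → ℕ → ℂ, (∀ a, BW w 1 1 (g a)) ∧
    ‖cx f w q r₀ F‖ ≤ δ * ms w F + C * ∑ a ∈ range P, ∑ d ∈ range D,
      (1 / 2) ^ (d + 1) * ‖wm (y d) w (fun t => kA q r₀ (γ a) t * g a t)‖ ^ 2

/-- XFR. One prime with the property (F). The numbers `S d` cover the large Fourier coefficients
of the digit `d`, for the first `D₀` digits. -/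
def T_XFR : Prop := ∀ (P : ℕ) (V δ : ℝ), 1 ≤ V → 0 < δ → ∃ (D₀ : ℕ) (τ : ℝ), 0 < τ ∧ τ ≤ 1 ∧
  ∀ (k : ℕ) (C₀ C₁ : ℝ), 0 < C₀ → C₀ < C₁ → ∃ C : ℝ, 0 ≤ C ∧
  ∀ (w q r₀ D : ℕ) (κ : ℕ → ℝ) (y : ℕ → ℕ → ℝ) (f : ℕ → ℝ) (S : ℕ → Fin k → ℝ)
    (c : ℕ → ℂ) (α : ℕ → ℝ) (F : ℕ → ℂ),
  D₀ ≤ D → 1 ≤ q → q ≤ 2 ^ w →
  (∀ d, 0 ≤ κ d ∧ κ d ≤ (1 / 2) ^ (d + 1)) → (∀ d t, |y d t| ≤ 1) →
  (∀ t, f t = ∑ d ∈ range D, κ d * y d t) →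
  (∀ d < D₀, CovT (y d) w (S d) C₀ (τ / 2)) →
  (∀ j, ‖c j‖ ≤ P) → (∀ t, F t = ∑ j ∈ range P, c j * ee (α j * t)) →
  ∑ j ∈ range P, ‖c j‖ ≤ V * ms w F →
  ∃ g : ℕ → ℕ → Fin k → ℕ → ℂ, (∀ j d i, BW w 1 (7 * C₁) (g j d i)) ∧
    ‖cx f w q r₀ F‖ ≤ δ * ms w F +
      C * ∑ j ∈ range P, ∑ d' ∈ range D₀, ∑ i, ∑ d ∈ range D,
        (1 / 2) ^ (d + 1) * ‖wm (y d) w (fun t => kA q r₀ (S d' i) t * g j d' i t)‖ ^ 2 +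
      3 * P ^ 2 * ∑ d' ∈ range D₀, EB.ind (∃ β : ℝ, FarT q w (S d') C₁ β ∧
        τ ≤ ‖wm (y d') w (kB q r₀ β)‖) +
      3 * P * ∑ j ∈ range P, ∑ d' ∈ range D₀, ∑ i, EB.ind (∃ b : ℤ, ¬ ((q : ℤ) ∣ b) ∧
        nd (α j - S d' i - (b : ℝ) / q) ≤ C₁ / 2 ^ w)

/-! ## one level -/

/-- XRO. The cross terms of one level: the mean over the windows of the correlation of `f` with
the dual functions of the families. `h` bounds the information of the digits. -/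
def T_XRO : Prop := ∀ (P : ℕ) (V δ : ℝ), 1 ≤ V → 0 < δ → ∃ c₀ : ℕ, ∀ c : ℕ, c₀ ≤ c →
  ∃ (C : ℝ) (w₀ : ℕ), 0 < C ∧ ∀ (N w D : ℕ) [NeZero N] (κ : ℕ → ℝ) (x : ℕ → ZMod N → Bool)
    (f : ZMod N → ℝ) (h : ℝ) (φ : ZMod N → ℕ → ℕ → ℝ) (u : ZMod N → ℕ → ℕ → ℂ),
  w₀ ≤ w → w₀ ≤ D → primorial (2 ^ (w / 200)) ∣ N →
  (∀ d, 0 ≤ κ d ∧ κ d ≤ (1 / 2) ^ (d + 1)) →
  (∀ n, f n = ∑ d ∈ range D, κ d * sg (x d n)) → (∀ d < D, infT c (x d) w ≤ h) →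
  (∀ n, NF w P V (φ n) (u n)) →
  avZ (fun n => ∑ q ∈ EB.QQ w, 1 / (q : ℝ) *
      ‖cx (fun t => f (n + (t : ZMod N))) w q n.val (fe P (φ n) (u n) q)‖) ≤
    δ * avZ (fun n => ∑ q ∈ EB.QQ w, 1 / (q : ℝ) * ms w (fe P (φ n) (u n) q)) +
      C * (h + Real.log w / w)

end Pool.Agent.H56.HB
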