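import Pool.Agent.H56.HB.XRO
import Pool.Agent.H56.HB.XFR
import Pool.Agent.H92.HB.XNR
import Pool.Agent.H87.HB.BAD
import Pool.Agent.H22.GS.All

/-!
# Theorem (H0), block (c): the cross term row without hypotheses
-/

set_option autoImplicit false

namespace Pool.Agent.H56.HB.All

open Pool.Agent.H56.HB

/-- the cross terms of one level -/
theorem xro : T_XRO := pf_XRO Pool.Agent.H22.GS.All.aCOV Pool.Agent.H22.GS.All.aLVA
  Pool.Agent.H22.GS.All.aLVB Pool.Agent.H87.HB.pf_BAD Pool.Agent.H92.HB.pf_XNR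
  Pool.Agent.H56.HB.XF.pf_XFR (fun _ _ _ _ x d => Pool.Agent.H81.GS.info_nnT x d)

end Pool.Agent.H56.HB.All
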